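import Mathlib
import Pool.Agent.H23.MaxRing

namespace Pool.Agent.Results.MP_4aedba_al.Incomplete

/-- There is a ring `R` with a maximal ring topology (non-discrete, Hausdorff, and equal to every
finer non-discrete Hausdorff ring topology) which is not complete.  The uniformity `u` is the
additive uniformity of its topology (`IsUniformAddGroup`); in Mathlib's order `s ≤ t` means that
`s` is finer than `t`, and `⊥` is the discrete topology. -/
theorem result : ∃ (R : Type) (_ : NonUnitalRing R) (u : UniformSpace R),
    @IsUniformAddGroup R u _ ∧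
    @IsTopologicalRing R u.toTopologicalSpace _ ∧ @T2Space R u.toTopologicalSpace ∧
    u.toTopologicalSpace ≠ ⊥ ∧
    (∀ s : TopologicalSpace R, @IsTopologicalRing R s _ → @T2Space R s → s ≠ ⊥ →
      s ≤ u.toTopologicalSpace → s = u.toTopologicalSpace) ∧
    ¬ @CompleteSpace R u :=
  ⟨_, _, Pool.Agent.H23.MaxRing.main⟩

end Pool.Agent.Results.MP_4aedba_al.Incomplete
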